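import Pool.Agent.N804.PV.Stm

set_option autoImplicit false

/-!
Project PV (helper804), parts AVG and AKB (helper864): from the sums over the pairs of zeros up to
all heights to their averages.
-/

namespace Pool.Agent.N864.PV

open Filter Topology Set MeasureTheory
open H370 (Zf mult zset)
open Pool.Agent.N804
open Pool.Agent.N804.PV

/-! ### dilations of the cosine transform -/

lemma CT_dil {r : ℝ → ℝ} (H : SC r) : ∃ C : ℝ, 0 ≤ C ∧ ∀ a x : ℝ, 1 / 2 ≤ a → a ≤ 2 →
    |CT r (a * x) - CT r x| ≤ C * |a - 1| * (1 / (1 + x ^ 2)) := by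
  obtain ⟨κ, hκ, hs⟩ := H.supp
  have W := tw_test H hκ hs
  obtain ⟨A0, hA0⟩ := W.dec 0
  obtain ⟨A3, hA3⟩ := W.dec 3
  have hA00 : 0 ≤ A0 := by
    have := hA0 0 le_rfl
    rw [pow_zero, one_mul] at this
    exact (abs_nonneg _).trans this
  have hA30 : 0 ≤ A3 := by
    have := hA3 0 le_rfl
    simpa using this
  have hw : ∀ y : ℝ, 0 ≤ y → (1 + y) ^ 3 * |tw r y| ≤ 4 * (A0 + A3) := by
    intro y hy
    have h0 := hA0 y hy
    have h3 := hA3 y hy
    rw [pow_zero, one_mul] at h0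
    have h4 : (1 + y) ^ 3 ≤ 4 * (1 + y ^ 3) := by
      nlinarith [mul_nonneg (add_nonneg zero_le_one hy) (sq_nonneg (y - 1))]
    calc (1 + y) ^ 3 * |tw r y| ≤ 4 * (1 + y ^ 3) * |tw r y| :=
          mul_le_mul_of_nonneg_right h4 (abs_nonneg _)
      _ = 4 * (|tw r y| + y ^ 3 * |tw r y|) := by ring
      _ ≤ 4 * (A0 + A3) := by linarith
  refine ⟨8 * (4 * (A0 + A3)), by positivity, fun a x ha1 ha2 => ?_⟩
  have ha0 : 0 < a := by linarith
  have hx := abs_nonneg x
  rw [W.eq (a * x), W.eq x, abs_mul, abs_of_pos ha0]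
  have i1 : IntegrableOn (tw r) (Ioi (a * |x|)) := by
    have := W.int 0 (a := a * |x|) (by positivity)
    simpa using this
  have i2 : IntegrableOn (tw r) (Ioi |x|) := by
    have := W.int 0 (a := |x|) hx
    simpa using this
  rw [intervalIntegral.integral_Ioi_sub_Ioi' i1 i2]
  set M : ℝ := 8 * (4 * (A0 + A3)) / (1 + |x|) ^ 3 with hM
  have hb : ∀ y ∈ uIoc (a * |x|) |x|, ‖tw r y‖ ≤ M := by
    intro y hy
    have hy1 : |x| / 2 ≤ y := by
      rcases mem_uIoc.1 hy with h | h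
      · have : |x| / 2 ≤ a * |x| := by nlinarith
        linarith [h.1]
      · linarith [h.1]
    have hy0 : 0 ≤ y := by linarith
    have h1 := hw y hy0
    rw [Real.norm_eq_abs, hM, le_div_iff₀ (by positivity)]
    have h2 : (1 + |x|) ^ 3 ≤ 8 * (1 + y) ^ 3 := by
      have h3 : 1 + |x| ≤ 2 * (1 + y) := by linarith
      calc (1 + |x|) ^ 3 ≤ (2 * (1 + y)) ^ 3 := pow_le_pow_left₀ (by positivity) h3 3
        _ = 8 * (1 + y) ^ 3 := by ring
    calc |tw r y| * (1 + |x|) ^ 3 ≤ |tw r y| * (8 * (1 + y) ^ 3) :=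
          mul_le_mul_of_nonneg_left h2 (abs_nonneg _)
      _ = 8 * ((1 + y) ^ 3 * |tw r y|) := by ring
      _ ≤ 8 * (4 * (A0 + A3)) := by linarith
  have h3 := intervalIntegral.norm_integral_le_of_norm_le_const hb
  rw [Real.norm_eq_abs] at h3
  refine h3.trans ?_
  have e1 : |(|x| - a * |x|)| = |a - 1| * |x| := by
    rw [show |x| - a * |x| = -((a - 1) * |x|) by ring, abs_neg, abs_mul, abs_abs]
  rw [e1, hM]
  have h4 : |x| / (1 + |x|) ^ 3 ≤ 1 / (1 + x ^ 2) := by
    rw [div_le_div_iff₀ (by positivity) (by positivity), one_mul, ← sq_abs x]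
    nlinarith [mul_nonneg hx hx, mul_nonneg (mul_nonneg hx hx) hx]
  calc 8 * (4 * (A0 + A3)) / (1 + |x|) ^ 3 * (|a - 1| * |x|) =
      8 * (4 * (A0 + A3)) * |a - 1| * (|x| / (1 + |x|) ^ 3) := by ring
    _ ≤ 8 * (4 * (A0 + A3)) * |a - 1| * (1 / (1 + x ^ 2)) :=
        mul_le_mul_of_nonneg_left h4 (by positivity)

/-! ### the index set -/

/-- the pairs of zeros -/
noncomputable def ZP (T : ℝ) : Finset (ℂ × ℂ) :=
  Zf riemannZeta 0 (T ^ 2) ×ˢ Zf riemannZeta 0 (T ^ 2)

/-- the position of a pair -/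
noncomputable def pz (T : ℝ) (i : ℂ × ℂ) : ℝ := max i.1.im i.2.im / T

/-- the weight of a pair -/
noncomputable def cf (f : ℝ → ℝ) (T : ℝ) (i : ℂ × ℂ) : ℝ :=
  (mult riemannZeta i.1 : ℝ) * (mult riemannZeta i.2 : ℝ) * f (i.1.im - i.2.im) / XX T

lemma pz_pos {T : ℝ} (hT : 0 < T) {i : ℂ × ℂ} (hi : i ∈ ZP T) : 0 < pz T i := by
  unfold ZP at hi
  rw [Finset.mem_product, mem_Z le_rfl, mem_Z le_rfl] at hi
  obtain ⟨⟨-, -, h, -, -⟩, -⟩ := hi
  exact div_pos (lt_of_lt_of_le h (le_max_left _ _)) hT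

lemma cf_sum (f : ℝ → ℝ) {T : ℝ} (hT : 0 < T) (v : ℝ) :
    ∑ i ∈ ZP T, (if pz T i ≤ v then cf f T i else 0) =
      dsum (min (v * T) (T ^ 2)) f / XX T := by
  rw [← Finset.sum_filter]
  have h1 : (ZP T).filter (fun i => pz T i ≤ v) =
      Zf riemannZeta 0 (min (v * T) (T ^ 2)) ×ˢ Zf riemannZeta 0 (min (v * T) (T ^ 2)) := by
    ext ⟨s, s'⟩
    simp only [ZP, Finset.mem_filter, Finset.mem_product, mem_Z le_rfl, pz, div_le_iff₀ hT,
      max_le_iff]
    constructor
    · rintro ⟨⟨⟨a1, a2, a3, a4, a5⟩, ⟨b1, b2, b3, b4, b5⟩⟩, h1, h2⟩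
      exact ⟨⟨a1, a2, a3, le_min h1 a4, a5⟩, ⟨b1, b2, b3, le_min h2 b4, b5⟩⟩
    · rintro ⟨⟨a1, a2, a3, a4, a5⟩, ⟨b1, b2, b3, b4, b5⟩⟩
      exact ⟨⟨⟨a1, a2, a3, a4.trans (min_le_right _ _), a5⟩,
        ⟨b1, b2, b3, b4.trans (min_le_right _ _), b5⟩⟩, a4.trans (min_le_left _ _),
        b4.trans (min_le_left _ _)⟩
  rw [h1, Finset.sum_product]
  unfold cf dsum
  rw [Finset.sum_div]
  refine Finset.sum_congr rfl fun s _ => ?_
  rw [Finset.sum_div]

lemma AT_eq (f : ℝ → ℝ) (T : ℝ) :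
    AT T f = (∑ i ∈ ZP T, ph (pz T i) * cf f T i) / Real.pi := by
  unfold AT ZP
  rw [Finset.sum_product, Finset.sum_div, Finset.sum_div]
  refine Finset.sum_congr rfl fun s _ => ?_
  rw [Finset.sum_div, Finset.sum_div]
  refine Finset.sum_congr rfl fun s' _ => ?_
  unfold cf pz
  rw [mul_div_assoc', div_div, mul_comm (XX T) Real.pi]
  congr 1
  ring

lemma dsum_dom {A B : ℝ} (h : A ≤ B) {f : ℝ → ℝ} (hf : ∀ d, 0 ≤ f d) : dsum A f ≤ dsum B f := by
  have hs : Zf riemannZeta 0 A ⊆ Zf riemannZeta 0 B := Z_sub le_rfl le_rfl h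
  unfold dsum
  refine (Finset.sum_le_sum fun s _ => Finset.sum_le_sum_of_subset_of_nonneg hs
    fun s' _ _ => mul_nonneg (by positivity) (hf _)).trans ?_
  exact Finset.sum_le_sum_of_subset_of_nonneg hs fun s _ _ =>
    Finset.sum_nonneg fun s' _ => mul_nonneg (by positivity) (hf _)

lemma kr_nonneg (T d : ℝ) : 0 ≤ kr T d := by
  unfold kr
  positivity

/-- the bound for the kernel on the pairs up to `v T` -/
lemma kr_bd : ∃ B T0 : ℝ, 0 < B ∧ 10 ≤ T0 ∧ (∀ T : ℝ, T0 ≤ T → dsum T (kr T) / XX T ≤ B) ∧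
    ∀ T : ℝ, T0 ≤ T → ∀ v : ℝ, 0 < v →
    dsum (min (v * T) (T ^ 2)) (kr T) / XX T ≤ 8 * B * (1 + v) := by
  obtain ⟨B, T0, hB, hT0, hker⟩ := ker_bd
  have hk : ∀ T : ℝ, T0 ≤ T → dsum T (kr T) / XX T ≤ B := hker
  refine ⟨B, T0, hB, hT0, hk, fun T hT v hv => ?_⟩
  have hT10 : 10 ≤ T := hT0.trans hT
  have hX := XX_pos (show 1 < T by linarith)
  have hL : 0 < Real.log T := Real.log_pos (by linarith)
  have hpi := Real.pi_pos
  set V : ℝ := min (v * T) (T ^ 2) with hV
  rcases le_or_gt T V with h | h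
  · have hV1 : 1 < V := by linarith
    have hXV := XX_pos hV1
    have h1 := hk V (hT.trans h)
    have hLV : Real.log T ≤ Real.log V := Real.log_le_log (by linarith) h
    have hLV2 : Real.log V ≤ 2 * Real.log T := by
      have h2 : V ≤ T ^ 2 := min_le_right _ _
      have h3 := Real.log_le_log (by linarith) h2
      rwa [Real.log_pow, Nat.cast_ofNat] at h3
    have hpt : ∀ d : ℝ, kr T d ≤ 4 * kr V d := by
      intro d
      unfold kr
      have h2 : (d * Real.log V / (2 * Real.pi)) ^ 2 ≤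
          4 * (d * Real.log T / (2 * Real.pi)) ^ 2 := by
        have h3 : (d * Real.log V / (2 * Real.pi)) ^ 2 =
            (d / (2 * Real.pi)) ^ 2 * Real.log V ^ 2 := by ring
        have h4 : 4 * (d * Real.log T / (2 * Real.pi)) ^ 2 =
            (d / (2 * Real.pi)) ^ 2 * (2 * Real.log T) ^ 2 := by ring
        rw [h3, h4]
        exact mul_le_mul_of_nonneg_left (pow_le_pow_left₀ (by linarith) hLV2 2) (sq_nonneg _)
      rw [mul_one_div, div_le_div_iff₀ (by positivity) (by positivity)]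
      linarith
    have h2 : dsum V (kr T) ≤ 4 * dsum V (kr V) := by
      rw [← dsum_cmul]
      exact dsum_mono hpt
    rw [div_le_iff₀ hXV] at h1
    have h3 : XX V ≤ 2 * v * XX T := by
      unfold XX
      have h4 : V ≤ v * T := min_le_left _ _
      have h5 : V * Real.log V ≤ v * T * (2 * Real.log T) :=
        mul_le_mul h4 hLV2 (by linarith) (by positivity)
      calc V * Real.log V / (2 * Real.pi) ≤ v * T * (2 * Real.log T) / (2 * Real.pi) := by gcongr
        _ = 2 * v * (T * Real.log T / (2 * Real.pi)) := by ring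
    rw [div_le_iff₀ hX]
    calc dsum V (kr T) ≤ 4 * (B * XX V) := by linarith
      _ ≤ 4 * (B * (2 * v * XX T)) := by gcongr
      _ = 8 * B * v * XX T := by ring
      _ ≤ 8 * B * (1 + v) * XX T := by
        have : 8 * B * v ≤ 8 * B * (1 + v) := by
          have : (0 : ℝ) ≤ 8 * B := by positivity
          nlinarith
        exact mul_le_mul_of_nonneg_right this hX.le
  · have h1 := hk T hT
    have h2 : dsum V (kr T) ≤ dsum T (kr T) := dsum_dom h.le (kr_nonneg T)
    refine (div_le_div_of_nonneg_right h2 hX.le).trans (h1.trans ?_)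
    nlinarith [mul_pos hB hv]

lemma log_ratio {v : ℝ} (hv : 0 < v) :
    Tendsto (fun T : ℝ => Real.log (v * T) / Real.log T) atTop (𝓝 1) := by
  have h1 : Tendsto (fun T : ℝ => Real.log v / Real.log T + 1) atTop (𝓝 (0 + 1)) :=
    (tendsto_const_nhds.div_atTop Real.tendsto_log_atTop).add tendsto_const_nhds
  rw [zero_add] at h1
  refine h1.congr' ?_
  filter_upwards [eventually_gt_atTop 1] with T hT
  have hL : 0 < Real.log T := Real.log_pos hT
  rw [Real.log_mul hv.ne' (by linarith), add_div, div_self hL.ne']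

lemma XX_ratio {v : ℝ} (hv : 0 < v) :
    Tendsto (fun T : ℝ => XX (v * T) / XX T) atTop (𝓝 v) := by
  have h1 := (log_ratio hv).const_mul v
  rw [mul_one] at h1
  refine h1.congr' ?_
  filter_upwards [eventually_gt_atTop 1] with T hT
  have hL : 0 < Real.log T := Real.log_pos hT
  have hpi := Real.pi_pos
  unfold XX
  field_simp

/-- the limit on the pairs up to `v T` -/
lemma lim_v {r : ℝ → ℝ} (H : SC r) {ℓ : ℝ}
    (h : Tendsto (fun T => dsum T (sc r T) / XX T) atTop (𝓝 ℓ)) {v : ℝ} (hv : 0 < v) :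
    Tendsto (fun T => dsum (min (v * T) (T ^ 2)) (sc r T) / XX T) atTop (𝓝 (v * ℓ)) := by
  obtain ⟨B, T0, hB, hT0, hk, -⟩ := kr_bd
  obtain ⟨C, hC, hdil⟩ := CT_dil H
  have hvT : Tendsto (fun T : ℝ => v * T) atTop atTop := tendsto_id.const_mul_atTop hv
  have h1 : Tendsto (fun T => XX (v * T) / XX T * (dsum (v * T) (sc r (v * T)) / XX (v * T)))
      atTop (𝓝 (v * ℓ)) := (XX_ratio hv).mul (h.comp hvT)
  have hlr : Tendsto (fun T : ℝ => Real.log T / Real.log (v * T)) atTop (𝓝 1) := by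
    have := (log_ratio hv).inv₀ one_ne_zero
    rw [inv_one] at this
    refine this.congr fun T => ?_
    rw [inv_div]
  have h2 : Tendsto (fun T => (dsum (v * T) (sc r (v * T)) - dsum (v * T) (sc r T)) / XX T) atTop
      (𝓝 0) := by
    have h3 : Tendsto (fun T : ℝ => C * |Real.log T / Real.log (v * T) - 1| * B *
        (XX (v * T) / XX T)) atTop (𝓝 0) := by
      have h4 : Tendsto (fun T : ℝ => |Real.log T / Real.log (v * T) - 1|) atTop (𝓝 0) := by
        have := (hlr.sub_const 1).abs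
        rwa [sub_self, abs_zero] at this
      have h5 := ((h4.const_mul C).mul_const B).mul (XX_ratio hv)
      simpa using h5
    refine squeeze_zero_norm' ?_ h3
    filter_upwards [hvT.eventually_ge_atTop T0, eventually_gt_atTop 1,
      hlr.eventually (Icc_mem_nhds (show (1 / 2 : ℝ) < 1 by norm_num)
        (show (1 : ℝ) < 2 by norm_num))] with T g1 g2 g3
    have hX := XX_pos g2
    have hXv := XX_pos (show 1 < v * T by linarith)
    have hLv : 0 < Real.log (v * T) := Real.log_pos (by linarith)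
    have hkv := hk (v * T) g1
    rw [div_le_iff₀ hXv] at hkv
    set a : ℝ := Real.log T / Real.log (v * T) with ha
    have hpt : ∀ d : ℝ, |sc r (v * T) d - sc r T d| ≤ C * |a - 1| * kr (v * T) d := by
      intro d
      have h6 := hdil a (d * Real.log (v * T) / (2 * Real.pi)) g3.1 g3.2
      have h7 : a * (d * Real.log (v * T) / (2 * Real.pi)) = d * Real.log T / (2 * Real.pi) := by
        rw [ha]
        field_simp
      rw [h7, abs_sub_comm] at h6
      exact h6
    rw [Real.norm_eq_abs, abs_div, abs_of_pos hX, ← dsum_sub, div_le_iff₀ hX]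
    calc |dsum (v * T) (fun d => sc r (v * T) d - sc r T d)| ≤
          dsum (v * T) (fun d => |sc r (v * T) d - sc r T d|) := dsum_abs _ _
      _ ≤ dsum (v * T) (fun d => C * |a - 1| * kr (v * T) d) := dsum_mono hpt
      _ = C * |a - 1| * dsum (v * T) (kr (v * T)) := dsum_cmul _ _ _
      _ ≤ C * |a - 1| * (B * XX (v * T)) := mul_le_mul_of_nonneg_left hkv (by positivity)
      _ = C * |a - 1| * B * (XX (v * T) / XX T) * XX T := by
        rw [mul_assoc (C * |a - 1| * B), div_mul_cancel₀ _ hX.ne']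
        ring
  have h3 := h1.sub h2
  rw [sub_zero] at h3
  refine h3.congr' ?_
  filter_upwards [hvT.eventually_ge_atTop T0, eventually_gt_atTop 1, eventually_ge_atTop v]
    with T g1 g2 g3
  have hX := XX_pos g2
  have hXv := XX_pos (show 1 < v * T by linarith)
  have h4 : min (v * T) (T ^ 2) = v * T := by
    apply min_eq_left
    nlinarith
  rw [h4]
  field_simp
  ring

/-- the constant in the decay of the transform -/
lemma sc_le {r : ℝ → ℝ} (H : SC r) : ∃ A : ℝ, 0 ≤ A ∧ ∀ T d : ℝ, |sc r T d| ≤ A * kr T d := by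
  obtain ⟨κ, hκ, hs⟩ := H.supp
  obtain ⟨A, hA⟩ := (tw_test H hκ hs).decay
  have hA0 : 0 ≤ A := by
    have := hA 0
    refine le_trans ?_ this
    positivity
  refine ⟨A, hA0, fun T d => ?_⟩
  unfold sc kr
  rw [mul_one_div, le_div_iff₀ (by positivity)]
  exact hA _

lemma cf_le {f g : ℝ → ℝ} {A : ℝ} (h : ∀ d, |f d| ≤ A * g d) {T : ℝ} (hT : 1 < T) (i : ℂ × ℂ) :
    |cf f T i| ≤ A * cf g T i := by
  have hX := XX_pos hT
  unfold cf
  rw [abs_div, abs_of_pos hX, abs_mul, abs_of_nonneg (by positivity :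
    (0 : ℝ) ≤ (mult riemannZeta i.1 : ℝ) * (mult riemannZeta i.2 : ℝ)), mul_div_assoc']
  refine div_le_div_of_nonneg_right ?_ hX.le
  calc (mult riemannZeta i.1 : ℝ) * (mult riemannZeta i.2 : ℝ) * |f (i.1.im - i.2.im)| ≤
      (mult riemannZeta i.1 : ℝ) * (mult riemannZeta i.2 : ℝ) * (A * g (i.1.im - i.2.im)) :=
        mul_le_mul_of_nonneg_left (h _) (by positivity)
    _ = _ := by ring

/-- **AVG** -/
theorem avg (h1 : S_ABEL) : S_AVG := by
  intro r H ℓ h
  obtain ⟨B, T0, hB, hT0, hk, hkv⟩ := kr_bd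
  obtain ⟨A, hA, hsc⟩ := sc_le H
  have key := h1 (ℂ × ℂ) ℓ (A * (8 * B)) T0 ZP pz (fun T => cf (sc r T) T)
    (fun T i => A * cf (kr T) T i) ?_ ?_ ?_
  · have h2 := key.div_const Real.pi
    rw [mul_div_cancel_left₀ _ Real.pi_ne_zero] at h2
    refine h2.congr fun T => ?_
    rw [AT_eq]
  · intro T hT i hi
    have hT1 : 1 < T := by linarith
    exact ⟨pz_pos (by linarith) hi, cf_le (hsc T) hT1 i⟩
  · intro T hT v hv
    have hT1 : 0 < T := by linarith
    have h2 : ∑ i ∈ ZP T, (if pz T i ≤ v then A * cf (kr T) T i else 0) =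
        A * ∑ i ∈ ZP T, (if pz T i ≤ v then cf (kr T) T i else 0) := by
      rw [Finset.mul_sum]
      refine Finset.sum_congr rfl fun i _ => ?_
      split_ifs <;> simp
    rw [h2, cf_sum _ hT1, mul_assoc A, mul_assoc]
    have h3 := hkv T hT v hv
    calc A * (dsum (min (v * T) (T ^ 2)) (kr T) / XX T) ≤ A * (8 * B * (1 + v)) := by gcongr
      _ = _ := by ring
  · intro v hv
    refine (lim_v H h hv).congr' ?_
    filter_upwards [eventually_gt_atTop 0] with T hT
    rw [cf_sum _ hT]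

/-- **AKB** -/
theorem akb (h2 : S_ABELB) : S_AKB := by
  obtain ⟨B, T0, hB, hT0, hk, hkv⟩ := kr_bd
  obtain ⟨C, hC, h⟩ := h2
  refine ⟨C * (8 * B) * (1 + 1) / Real.pi, T0, by positivity, fun T hT => ?_⟩
  have hT1 : 1 < T := by linarith
  have hX := XX_pos hT1
  rw [AT_eq]
  refine div_le_div_of_nonneg_right ?_ Real.pi_pos.le
  have h3 := (h (ℂ × ℂ) (ZP T) (pz T) (cf (kr T) T) (8 * B) (by positivity)
    (fun i hi => ⟨pz_pos (by linarith) hi, ?_⟩) (fun v hv => ?_) 1 one_pos).1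
  · simpa using h3
  · unfold cf
    exact div_nonneg (mul_nonneg (by positivity) (kr_nonneg _ _)) hX.le
  · rw [cf_sum _ (by linarith)]
    exact hkv T hT v hv

end Pool.Agent.N864.PV
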